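import Pool.Agent.H837.CF.Fam

/-!
# Families of zero-cycles over the complex numbers
-/

set_option autoImplicit false

namespace Pool.Agent.H837.CF

open MvPolynomial Pool.Agent.Y148.OD Pool.Agent.H837.UF
open Filter hiding map

variable {R : Type} [CommRing R] {r s m m' : ℕ}

theorem val_smul {K : Type} [CommRing K]
    {g : MvPolynomial (Fin (r + 1)) (MvPolynomial (Fin (s + 1)) R)} {d : ℕ} (hg : g.IsHomogeneous d)
    (φ : R →+* K) (c : K) (v : Fin (r + 1) → K) : val g φ (c • v) = C (c ^ d) * val g φ v := by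
  rw [val, val, eval₂_eq', eval₂_eq', Finset.mul_sum]
  refine Finset.sum_congr rfl fun μ hμ => ?_
  have h1 : ∏ i, (C ((c • v) i) : MvPolynomial (Fin (s + 1)) K) ^ μ i =
      C (c ^ d) * ∏ i, C (v i) ^ μ i := by
    have h2 : μ.degree = d := by
      rw [← hg (mem_support_iff.mp hμ)]
      exact DFunLike.congr_fun Finsupp.degree_eq_weight_one μ
    rw [← h2, Finsupp.degree_eq_sum, ← Finset.prod_pow_eq_pow_sum, map_prod,
      ← Finset.prod_mul_distrib]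
    refine Finset.prod_congr rfl fun i _ => ?_
    rw [Pi.smul_apply, smul_eq_mul, C_mul, mul_pow, C_pow]
  rw [h1]
  ring

theorem isValue_smul {G : Finset (MvPolynomial (Fin (r + 1)) (MvPolynomial (Fin (s + 1)) R))}
    (hG : ∀ g ∈ G, ∃ d : ℕ, g.IsHomogeneous d) {K : Type} [Field K] {φ : R →+* K} {c : K}
    (hc : c ≠ 0) {v : Fin (r + 1) → K} {y : Fin m → Fin (s + 1) → K} (h : IsValue G φ v y) :
    IsValue G φ (c • v) y := by
  obtain ⟨⟨g, hg, hg0⟩, h⟩ := h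
  refine ⟨⟨g, hg, ?_⟩, fun g' hg' => ?_⟩
  · obtain ⟨d, hd⟩ := hG g hg
    rw [val_smul hd]
    refine mul_ne_zero ?_ hg0
    rw [Ne, ← C_0, C_inj]
    exact pow_ne_zero _ hc
  · obtain ⟨d, hd⟩ := hG g' hg'
    obtain ⟨a, ha⟩ := h g' hg'
    exact ⟨c ^ d * a, by rw [val_smul hd, ha, C_mul, mul_assoc]⟩

/-- Two effective zero-cycles with proportional Chow forms have the same class. -/
theorem cl_of_chow {Y : Set (Pt s)} (hY : Y.Nonempty) {y y' : Fin m → Fin (s + 1) → ℂ}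
    (hy : ∀ i, y i ∈ cone Y) (hy' : ∀ i, y' i ∈ cone Y) {a b : ℂ} (ha : a ≠ 0) (hb : b ≠ 0)
    (h : C a * UF.chow y = C b * UF.chow y') : ∑ i, cl Y (y i) = ∑ i, cl Y (y' i) := by
  rw [cl_iff hY hy hy']
  refine ⟨0, fun i => i.elim0, a, b, fun i => i.elim0, ha, hb, fun _ => C a * UF.chow y,
    fun _ => ?_, ?_, ?_, fun t => ⟨a, y, hy, ?_⟩⟩
  · have := (isHomogeneous_C (Fin (s + 1)) a).mul (chow_isHomogeneous y)
    rwa [zero_add] at this
  · rw [UF.chow, UF.chow]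
    simp
  · rw [h]
    rw [UF.chow, UF.chow]
    simp
  · simp

/-- The morphism `f` to the symmetric product is given by the polynomials in `G`. -/
def Given (S : Finset (MvPolynomial (Fin (r + 1)) R)) (T : Finset (MvPolynomial (Fin (s + 1)) R))
    (G : Finset (MvPolynomial (Fin (r + 1)) (MvPolynomial (Fin (s + 1)) R))) (ι : R →+* ℂ)
    (f : Member S ι → Fin m → Member T ι) : Prop :=
  ∀ x : Member S ι, IsValue G ι (x : Pt r).rep fun i => (f x i : Pt s).rep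

variable {S : Finset (MvPolynomial (Fin (r + 1)) R)} {T : Finset (MvPolynomial (Fin (s + 1)) R)}
  {G G' : Finset (MvPolynomial (Fin (r + 1)) (MvPolynomial (Fin (s + 1)) R))} {ι : R →+* ℂ}

theorem chow_rep {n : ℕ} (x : Fin n → Pt s) : (UF.chow fun i => (x i).rep) = chowForm x := rfl

theorem Given.isMorphism (hG : ∀ g ∈ G, ∃ d : ℕ, g.IsHomogeneous d)
    {f : Member S ι → Fin m → Member T ι} (hf : Given S T G ι f) :
    IsMorphism (Member S ι) (Member T ι) f := by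
  classical
  have hv : ∀ (g : MvPolynomial (Fin (r + 1)) (MvPolynomial (Fin (s + 1)) R)) (v : Fin (r + 1) → ℂ),
      value (map (map ι) g) v = val g ι v := by
    intro g v
    rw [value, val, eval_map]
  refine ⟨G.image (map (map ι)), ?_, fun x g hg => ?_, fun x => ?_⟩
  · intro g' hg'
    obtain ⟨g, hg, rfl⟩ := Finset.mem_image.mp hg'
    obtain ⟨d, hd⟩ := hG g hg
    exact ⟨d, hd.map _⟩
  · obtain ⟨g, hg', rfl⟩ := Finset.mem_image.mp hg
    obtain ⟨c, hc⟩ := (hf x).2 g hg'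
    exact ⟨c, by rw [hv, hc, chow_rep]⟩
  · obtain ⟨g, hg, hg0⟩ := (hf x).1
    exact ⟨_, Finset.mem_image_of_mem _ hg, by rw [hv]; exact hg0⟩

theorem point_of_mem (hS : ∀ P ∈ S, ∃ d : ℕ, P.IsHomogeneous d) {v : Fin (r + 1) → ℂ}
    (hv : v ∈ Cone S ι) : ∃ (x : Member S ι) (c : ℂ), c ≠ 0 ∧ v = c • (x : Pt r).rep ∧
      cl (Member S ι) v = γ (Member S ι) fun _ : Fin 1 => x := by
  have h1 : v ∈ cone (Member S ι) := by
    rw [cone_member hS ι]
    exact hv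
  obtain ⟨hv0, hx⟩ := h1
  obtain ⟨c, hc, hcv⟩ := exists_rep v hv0
  refine ⟨⟨_, hx⟩, c⁻¹, inv_ne_zero hc, ?_, ?_⟩
  · show v = c⁻¹ • (Projectivization.mk ℂ v hv0).rep
    rw [hcv, smul_smul, inv_mul_cancel₀ hc, one_smul]
  · have h2 := γ_pt (X := Member S ι) fun _ : Fin 1 => (⟨v, ⟨hv0, hx⟩⟩ : cone (Member S ι))
    rw [Fin.sum_univ_one] at h2
    exact h2.symm

theorem Given.exists_value (hS : ∀ P ∈ S, ∃ d : ℕ, P.IsHomogeneous d)
    (hG : ∀ g ∈ G, ∃ d : ℕ, g.IsHomogeneous d)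
    {f : Member S ι → Fin m → Member T ι} (hf : Given S T G ι f) {v : Fin (r + 1) → ℂ}
    (hv : v ∈ Cone S ι) : ∃ y : Fin m → Fin (s + 1) → ℂ, (∀ i, y i ∈ Cone T ι) ∧
      IsValue G ι v y := by
  obtain ⟨x, c, hc, rfl, -⟩ := point_of_mem hS hv
  exact ⟨_, fun i => (f x i).2, isValue_smul hG hc (hf x)⟩

theorem Given.cl_eq
    (hT : ∀ P ∈ T, ∃ d : ℕ, P.IsHomogeneous d)
    (hG : ∀ g ∈ G, ∃ d : ℕ, g.IsHomogeneous d)
    {f : Member S ι → Fin m → Member T ι} (hf : Given S T G ι f) {v : Fin (r + 1) → ℂ}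
    (x : Member S ι) {c : ℂ} (hc : c ≠ 0) (hv : v = c • (x : Pt r).rep)
    {y : Fin m → Fin (s + 1) → ℂ} (hy : ∀ i, y i ∈ Cone T ι) (h : IsValue G ι v y) :
    ∑ i, cl (Member T ι) (y i) = γ (Member T ι) (f x) := by
  have h1 : γ (Member T ι) (f x) = ∑ i, cl (Member T ι) ((f x i : Pt s).rep) := by
    have h2 := γ_pt (X := Member T ι) fun i => vec (f x i)
    simp only [pt_vec] at h2
    rw [h2]
    rfl
  rw [h1]
  rcases Nat.eq_zero_or_pos m with rfl | hm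
  · rw [Fin.sum_univ_zero, Fin.sum_univ_zero]
  have hne : (Member T ι).Nonempty := ⟨_, (f x ⟨0, hm⟩).2⟩
  obtain ⟨⟨g, hg, hg0⟩, hall⟩ := h
  obtain ⟨a, ha⟩ := hall g hg
  have h3 := isValue_smul hG hc (hf x)
  rw [← hv] at h3
  obtain ⟨b, hb⟩ := h3.2 g hg
  have ha0 : a ≠ 0 := by
    rintro rfl
    rw [C_0, zero_mul] at ha
    exact hg0 ha
  have hb0 : b ≠ 0 := by
    rintro rfl
    rw [C_0, zero_mul] at hb
    exact hg0 hb
  exact cl_of_chow hne (fun i => by rw [cone_member hT ι]; exact hy i)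
    (fun i => rep_mem_cone (f x i).2) ha0 hb0 (ha.symm.trans hb)

/-- The class of the image of a point. -/
theorem graph_cl (hS : ∀ P ∈ S, ∃ d : ℕ, P.IsHomogeneous d)
    (hT : ∀ P ∈ T, ∃ d : ℕ, P.IsHomogeneous d) (hG : ∀ g ∈ G, ∃ d : ℕ, g.IsHomogeneous d)
    (hG' : ∀ g ∈ G', ∃ d : ℕ, g.IsHomogeneous d) {f : Member S ι → Fin m → Member T ι}
    {g : Member S ι → Fin m' → Member T ι} (hf : Given S T G ι f) (hg : Given S T G' ι g)
    {φ : B (Member S ι) →+ B (Member T ι)}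
    (hφ : ∀ x, φ (γ (Member S ι) fun _ : Fin 1 => x) = γ (Member T ι) (f x) - γ (Member T ι) (g x))
    {v : Fin (r + 1) → ℂ} {y : Fin m → Fin (s + 1) → ℂ} {y' : Fin m' → Fin (s + 1) → ℂ}
    (h : Graph S T G G' ι v y y') :
    φ (cl (Member S ι) v) = ∑ i, cl (Member T ι) (y i) - ∑ i, cl (Member T ι) (y' i) := by
  obtain ⟨x, c, hc, hv, hcl⟩ := point_of_mem hS h.mem
  rw [hcl, hφ, hf.cl_eq hT hG x hc hv h.left_mem h.left,
    hg.cl_eq hT hG' x hc hv h.right_mem h.right]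

theorem exists_graph (hS : ∀ P ∈ S, ∃ d : ℕ, P.IsHomogeneous d)
    (hG : ∀ g ∈ G, ∃ d : ℕ, g.IsHomogeneous d)
    (hG' : ∀ g ∈ G', ∃ d : ℕ, g.IsHomogeneous d) {f : Member S ι → Fin m → Member T ι}
    {g : Member S ι → Fin m' → Member T ι} (hf : Given S T G ι f) (hg : Given S T G' ι g)
    {v : Fin (r + 1) → ℂ} (hv : v ∈ Cone S ι) : ∃ (y : Fin m → Fin (s + 1) → ℂ)
      (y' : Fin m' → Fin (s + 1) → ℂ), Graph S T G G' ι v y y' := by
  obtain ⟨y, hy, hyv⟩ := hf.exists_value hS hG hv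
  obtain ⟨y', hy', hyv'⟩ := hg.exists_value hS hG' hv
  exact ⟨y, y', hv, hy, hy', hyv, hyv'⟩

/-- Equality of classes of families with arbitrary index sets. -/
theorem clT_iff {Y : Set (Pt s)} (hY : Y.Nonempty) {A A' : Type} [Fintype A] [Fintype A']
    (hA : Fintype.card A = Fintype.card A') {x : A → Fin (s + 1) → ℂ} {y : A' → Fin (s + 1) → ℂ}
    (hx : ∀ i, x i ∈ cone Y) (hy : ∀ i, y i ∈ cone Y) :
    ∑ i, cl Y (x i) = ∑ i, cl Y (y i) ↔ ∃ c, RatEqT (cone Y) c x y := by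
  have eA := (Fintype.equivFin A).symm
  have eA' := (Fintype.equivFin A').symm
  rw [← hA] at eA'
  rw [← Equiv.sum_comp eA (fun i => cl Y (x i)), ← Equiv.sum_comp eA' (fun i => cl Y (y i)),
    cl_iff hY (fun i => hx _) (fun i => hy _)]
  exact exists_congr fun c => (ratEqT_iff eA eA' x y).symm

end Pool.Agent.H837.CF
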