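import Pool.Agent.H837.RN.Final

/-!
# Homomorphisms given by families of zero-cycles and zero-cycles with a point on a hyperplane section
-/

set_option autoImplicit false

namespace Pool.Agent.H837.CF

open MvPolynomial Pool.Agent.Y148.OD Pool.Agent.H837.RN

variable {r s : ℕ} {X : Set (Pt r)} {Y : Set (Pt s)}

/-- A proper hyperplane section has smaller dimension. -/
theorem small_sec {k : Subfield ℂ} {M : ℕ} (hS : Setup k (cone X) (M + 1)) {l : Fin (r + 1) → ℂ}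
    (hlk : ∀ a, l a ∈ k) (hl : ∃ v ∈ cone X, ∑ a, l a * v a ≠ 0) :
    Small k (cone X) (Sec (cone X) l) M := by
  classical
  have hunc := uncountable_complex
  set P : MvPolynomial (Fin (r + 1)) k := ∑ a, C ⟨l a, hlk a⟩ * MvPolynomial.X a with hP
  have hPv : ∀ v : Fin (r + 1) → ℂ, aeval v P = ∑ a, l a * v a := by
    intro v
    rw [hP, map_sum]
    refine Finset.sum_congr rfl fun a _ => ?_
    rw [map_mul, aeval_X, aeval_C]
    rfl
  refine ⟨fun v hv => hv.1, ?_, ?_, ?_⟩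
  · obtain ⟨T, hT⟩ := hS.closed
    refine ⟨T ∪ {P}, fun v => ?_⟩
    constructor
    · rintro ⟨hv, hv0⟩
      obtain ⟨h1, h2⟩ := (hT v).mp hv
      refine ⟨h1, ?_⟩
      rintro Q (hQ | hQ)
      · exact h2 Q hQ
      · rw [Set.mem_singleton_iff.mp hQ, hPv]
        exact hv0
    · rintro ⟨h1, h2⟩
      refine ⟨(hT v).mpr ⟨h1, fun Q hQ => h2 Q (Or.inl hQ)⟩, ?_⟩
      have := h2 P (Or.inr rfl)
      rwa [hPv] at this
  · rintro c v hc ⟨hv, hv0⟩
    refine ⟨smul_mem_cone hc hv, ?_⟩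
    have h1 : ∑ a, l a * (c • v) a = c * ∑ a, l a * v a := by
      rw [Finset.mul_sum]
      refine Finset.sum_congr rfl fun a _ => ?_
      rw [Pi.smul_apply, smul_eq_mul]
      ring
    rw [h1, hv0, mul_zero]
  · rintro v ⟨hv, hv0⟩
    by_contra hcon
    rw [not_le] at hcon
    obtain ⟨w, hw, hw0⟩ := hl
    have h1 : ((M + 1 : ℕ) : ℕ∞) ≤ rk k (Set.range v) := by
      have := Order.add_one_le_of_lt hcon
      exact_mod_cast this
    have h2 := (hS.point le_rfl hS.countable).2 v hv h1 P (by rw [hPv]; exact hv0) w hw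
    rw [hPv] at h2
    exact hw0 h2

/-- **The image is supported on a divisor if and only if zero-cycles can be moved to have a point on a
given hyperplane section.** -/
theorem corr_geo {N : ℕ} (hN : 1 ≤ N) (hX : IsVariety X N) (hY : IsClosedSet Y) {φ : B X →+ B Y}
    (hφ : IsAlgebraicHom X Y φ) {l : Fin (r + 1) → ℂ} (hl : ∃ v ∈ cone X, ∑ a, l a * v a ≠ 0) :
    (∃ n : ℕ, ∀ x : Fin n → X, 0 < dim (fibreHom φ x)) ↔
      ∃ p : ℕ, ∀ z : Fin (p + 1) → Fin (r + 1) → ℂ, (∀ i, z i ∈ cone X) →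
        ∃ y : Fin (p + 1) → Fin (r + 1) → ℂ, (∀ i, y i ∈ cone X) ∧ ∑ a, l a * y 0 a = 0 ∧
          ∑ i, φ (cl X (z i)) = ∑ i, φ (cl X (y i)) := by
  classical
  have := uncountable_complex
  obtain ⟨e, rfl⟩ : ∃ e, N = e + 1 := ⟨N - 1, by omega⟩
  obtain ⟨k₀, hk₀⟩ := setup_cone hX
  obtain ⟨k₁, hk0k, hkc, hc₁⟩ := cls_hom stmStab hY hφ hk₀
  set k := adj k₁ (Set.range l) with hk
  have hkc' : Countable k := countable_adj (Set.countable_range l)
  have hk1k : k₁ ≤ k := le_adj_left _ _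
  have hlk : ∀ a, l a ∈ k := fun a => subset_adj _ _ ⟨a, rfl⟩
  have hS : Setup k (cone X) (e + 1 + 1) := hk₀.mono (hk0k.trans hk1k) hkc'
  have hc : Cls k (cone X) (fun v => φ (cl X v)) := hc₁.mono hk1k
  have key : ∀ (n s : ℕ), (∀ x : Fin n → X, s ≤ dim (fibreHom φ x)) ↔
      ∀ z : Fin n → Fin (r + 1) → ℂ, (∀ i, z i ∈ cone X) →
        Big (cone X) (fun v => φ (cl X v)) z (s + n) := by
    intro n s
    constructor
    · intro h z hzc
      exact (big_iffHom φ (sum_cl φ z hzc) s).mpr (h _)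
    · intro h x
      exact (big_iffHom φ (sum_vec φ x) s).mp (h _ fun i => (vec (x i)).2)
  constructor
  · rintro ⟨n, hn⟩
    have h1 := (key n 1).mp hn
    obtain ⟨p, hp⟩ := genMove_of_all (n := n) hS fun z hz => (h1 z hz).mono (by omega)
    refine ⟨p, fun z hz => ?_⟩
    obtain ⟨v, hv, b, ⟨y, hy, hyb⟩, hsum⟩ := eff_move hS hc hp l hlk _ ⟨z, hz, rfl⟩
    refine ⟨Fin.cons v y, fun i => ?_, ?_, ?_⟩
    · refine Fin.cases ?_ (fun i => ?_) i
      · exact hv.1
      · exact hy i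
    · exact hv.2
    · rw [hsum, hyb, Fin.sum_univ_succ]
      rfl
  · rintro ⟨p, hp⟩
    have hmv : ∀ a ∈ Eff (cone X) (fun v => φ (cl X v)) (p + 1), ∃ v ∈ Sec (cone X) l,
        ∃ b ∈ Eff (cone X) (fun v => φ (cl X v)) p, a = φ (cl X v) + b := by
      rintro a ⟨z, hz, rfl⟩
      obtain ⟨y, hy, hy0, hs⟩ := hp z hz
      refine ⟨y 0, ⟨hy 0, hy0⟩, ∑ i : Fin p, φ (cl X (y i.succ)), ⟨fun i => y i.succ,
        fun i => hy _, rfl⟩, ?_⟩
      rw [hs, Fin.sum_univ_succ]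
    have hsec := eff_section hmv
    have hW := small_sec hS hlk hl
    have hS' : Setup k (cone X) (0 + 1 + (e + 1)) := by
      have h2 : e + 1 + 1 = 0 + 1 + (e + 1) := by omega
      rwa [h2] at hS
    have hR : Red (cone X) (cone X) (Sec (cone X) l) (fun v => φ (cl X v)) p := by
      intro n a ha
      by_cases hn : n < p
      · exact ⟨0, n, by omega, by omega, 0, eff_zero, a, ha, (zero_add a).symm⟩
      · obtain ⟨s, rfl⟩ : ∃ s, n = s + p := ⟨n - p, by omega⟩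
        obtain ⟨b, hb, b', hb', hab⟩ := hsec s a ha
        exact ⟨s, p, rfl, le_rfl, b, hb, b', hb', hab⟩
    have h3 : ∃ (k' : Subfield ℂ) (W : Set (Fin (r + 1) → ℂ)) (P : ℕ), Countable k' ∧ k ≤ k' ∧
        Small k' (cone X) W (e + 1) ∧ Red (cone X) (cone X) W (fun v => φ (cl X v)) P :=
      ⟨k, _, p, hkc', le_rfl, hW, hR⟩
    obtain ⟨m, hm⟩ := ((roitman_tfae stmComp hS' hc).out 1 2).mpr h3
    refine ⟨m, (key m 1).mpr fun z hz => (hm z hz).mono (by omega)⟩

end Pool.Agent.H837.CF
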