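import Pool.Agent.H837.UF.Alt2
import Pool.Agent.H837.CF.Geo

/-!
# Reductions of families of zero-cycles
-/

set_option autoImplicit false

namespace Pool.Agent.H837.CF

open MvPolynomial Pool.Agent.Y148.OD Pool.Agent.H837.UF
open Filter hiding map

section Defs

variable {R : Type} [CommRing R] {r s m m' : ℕ}

/-- The value at the coordinate vector `v`, after applying `φ` to all coefficients, of a polynomial `G`
in the coordinates whose coefficients are polynomials in the variables of the Chow forms. -/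
noncomputable def val {K : Type} [CommRing K]
    (G : MvPolynomial (Fin (r + 1)) (MvPolynomial (Fin (s + 1)) R)) (φ : R →+* K)
    (v : Fin (r + 1) → K) : MvPolynomial (Fin (s + 1)) K :=
  eval₂ (map φ) (fun a => C (v a)) G

/-- `F` is a multiple of the Chow form of the zero-cycle `∑ [y i]`. -/
def MulChow {K : Type} [Field K] (F : MvPolynomial (Fin (s + 1)) K) (y : Fin m → Fin (s + 1) → K) :
    Prop := ∃ c : K, F = C c * UF.chow y

/-- The zero-cycle `∑ [y i]` of degree `m` is the value at `v` of the family of zero-cycles given by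
the polynomials in `G`: their values at `v` are multiples of its Chow form, and not all zero. -/
def IsValue (G : Finset (MvPolynomial (Fin (r + 1)) (MvPolynomial (Fin (s + 1)) R))) {K : Type}
    [Field K] (φ : R →+* K) (v : Fin (r + 1) → K) (y : Fin m → Fin (s + 1) → K) : Prop :=
  (∃ g ∈ G, val g φ v ≠ 0) ∧ ∀ g ∈ G, MulChow (val g φ v) y

/-- `v` is a point of the variety given by `S` and `φ`, and the zero-cycles `∑ [y i]` and `∑ [y' i]` on
the variety given by `T` and `φ` are the values at `v` of the families given by `G` and `G'`. -/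
structure Graph (S : Finset (MvPolynomial (Fin (r + 1)) R)) (T : Finset (MvPolynomial (Fin (s + 1)) R))
    (G G' : Finset (MvPolynomial (Fin (r + 1)) (MvPolynomial (Fin (s + 1)) R))) {K : Type} [Field K]
    (φ : R →+* K) (v : Fin (r + 1) → K) (y : Fin m → Fin (s + 1) → K)
    (y' : Fin m' → Fin (s + 1) → K) : Prop where
  mem : v ∈ Cone S φ
  left_mem : ∀ i, y i ∈ Cone T φ
  right_mem : ∀ i, y' i ∈ Cone T φ
  left : IsValue G φ v y
  right : IsValue G' φ v y'

end Defs

section Los

variable {R : Type} [CommRing R] {r s m m' : ℕ}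

theorem map_val {K L : Type} [CommRing K] [CommRing L] (ψ : K →+* L)
    (g : MvPolynomial (Fin (r + 1)) (MvPolynomial (Fin (s + 1)) R)) (φ : R →+* K)
    (v : Fin (r + 1) → K) : map ψ (val g φ v) = val g (ψ.comp φ) fun a => ψ (v a) := by
  unfold val
  rw [eval₂_comp_left]
  have h1 : (map ψ).comp (map φ) = (map (ψ.comp φ) : MvPolynomial (Fin (s + 1)) R →+* _) := by
    ext x <;> simp
  have h2 : (map ψ ∘ fun a => C (v a) : Fin (r + 1) → MvPolynomial (Fin (s + 1)) L) =
      fun a => C (ψ (v a)) := by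
    refine _root_.funext fun a => ?_
    simp
  rw [h1, h2]

variable {J : Type} {U : Ultrafilter J} {K : J → Type} [∀ j, Field (K j)] {L : Type} [Field L]
  {π : (∀ j, K j) →+* L}

theorem isValue_lim (hπ : IsUltra U π)
    (G : Finset (MvPolynomial (Fin (r + 1)) (MvPolynomial (Fin (s + 1)) R))) (φ : R →+* (∀ j, K j))
    (v : Fin (r + 1) → ∀ j, K j) (y : Fin m → Fin (s + 1) → ∀ j, K j) :
    IsValue G (π.comp φ) (fun a => π (v a)) (fun i b => π (y i b)) ↔
      ∀ᶠ j in U, IsValue G ((Pi.evalRingHom K j).comp φ) (fun a => v a j) (fun i b => y i b j) := by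
  classical
  have hv : ∀ g : MvPolynomial (Fin (r + 1)) (MvPolynomial (Fin (s + 1)) R),
      val g (π.comp φ) (fun a => π (v a)) = map π (val g φ v) := fun g => (map_val π g φ v).symm
  have hvj : ∀ (g : MvPolynomial (Fin (r + 1)) (MvPolynomial (Fin (s + 1)) R)) (j : J),
      val g ((Pi.evalRingHom K j).comp φ) (fun a => v a j) =
        map (Pi.evalRingHom K j) (val g φ v) :=
    fun g j => (map_val (Pi.evalRingHom K j) g φ v).symm
  have hch : (UF.chow fun i b => π (y i b)) = map π (UF.chow y) := (map_chow π y).symm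
  have hchj : ∀ j, (UF.chow fun i b => y i b j) = map (Pi.evalRingHom K j) (UF.chow y) := fun j =>
    (map_chow (Pi.evalRingHom K j) y).symm
  have h1 : (∃ g ∈ G, val g (π.comp φ) (fun a => π (v a)) ≠ 0) ↔
      ∀ᶠ j in U, ∃ g ∈ G, val g ((Pi.evalRingHom K j).comp φ) (fun a => v a j) ≠ 0 := by
    have h0 : (∀ g ∈ G, val g (π.comp φ) (fun a => π (v a)) = 0) ↔
        ∀ᶠ j in U, ∀ g ∈ G, val g ((Pi.evalRingHom K j).comp φ) (fun a => v a j) = 0 := by
      rw [Finset.eventually_all]
      refine forall₂_congr fun g _ => ?_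
      rw [hv, hπ.mv_zero]
      refine eventually_congr (Eventually.of_forall fun j => ?_)
      rw [hvj]
    have h0' := not_congr h0
    rw [← Ultrafilter.eventually_not] at h0'
    push Not at h0'
    exact h0'
  have h2 : (∀ g ∈ G, ∃ c : L, val g (π.comp φ) (fun a => π (v a)) =
      C c * UF.chow fun i b => π (y i b)) ↔
      ∀ᶠ j in U, ∀ g ∈ G, ∃ c : K j, val g ((Pi.evalRingHom K j).comp φ) (fun a => v a j) =
        C c * UF.chow fun i b => y i b j := by
    rw [Finset.eventually_all]
    refine forall₂_congr fun g _ => ?_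
    constructor
    · rintro ⟨c, hc⟩
      obtain ⟨c', rfl⟩ := hπ.surj c
      rw [hv, hch, ← map_C, ← map_mul, hπ.mv_eq] at hc
      filter_upwards [hc] with j hj
      refine ⟨c' j, ?_⟩
      rw [hvj, hchj, hj, map_mul, map_C]
      rfl
    · intro h
      obtain ⟨c, hc⟩ := eventually_choose (A := fun j => K j) h
      refine ⟨π c, ?_⟩
      rw [hv, hch, ← map_C, ← map_mul, hπ.mv_eq]
      filter_upwards [hc] with j hj
      rw [hvj, hchj] at hj
      rw [hj, map_mul, map_C]
      rfl
  unfold IsValue MulChow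
  rw [h1, h2, ← eventually_and]

theorem graph_lim (hπ : IsUltra U π) (S : Finset (MvPolynomial (Fin (r + 1)) R))
    (T : Finset (MvPolynomial (Fin (s + 1)) R))
    (G G' : Finset (MvPolynomial (Fin (r + 1)) (MvPolynomial (Fin (s + 1)) R)))
    (φ : ∀ j, R →+* K j) (v : Fin (r + 1) → ∀ j, K j) (y : Fin m → Fin (s + 1) → ∀ j, K j)
    (y' : Fin m' → Fin (s + 1) → ∀ j, K j) :
    Graph S T G G' (π.comp (RingHom.pi φ)) (fun a => π (v a)) (fun i b => π (y i b))
        (fun i b => π (y' i b)) ↔
      ∀ᶠ j in U, Graph S T G G' (φ j) (fun a => v a j) (fun i b => y i b j) (fun i b => y' i b j) := by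
  have h1 := cone_lim hπ S (RingHom.pi φ) v
  have h2 : (∀ i, (fun b => π (y i b)) ∈ Cone T (π.comp (RingHom.pi φ))) ↔
      ∀ᶠ j in U, ∀ i, (fun b => y i b j) ∈ Cone T (φ j) := by
    rw [eventually_all]
    exact forall_congr' fun i => cone_lim hπ T (RingHom.pi φ) (y i)
  have h3 : (∀ i, (fun b => π (y' i b)) ∈ Cone T (π.comp (RingHom.pi φ))) ↔
      ∀ᶠ j in U, ∀ i, (fun b => y' i b j) ∈ Cone T (φ j) := by
    rw [eventually_all]
    exact forall_congr' fun i => cone_lim hπ T (RingHom.pi φ) (y' i)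
  have h4 := isValue_lim hπ G (RingHom.pi φ) v y
  have h5 := isValue_lim hπ G' (RingHom.pi φ) v y'
  constructor
  · rintro ⟨a1, a2, a3, a4, a5⟩
    filter_upwards [h1.mp a1, h2.mp a2, h3.mp a3, h4.mp a4, h5.mp a5] with j b1 b2 b3 b4 b5
    exact ⟨b1, b2, b3, b4, b5⟩
  · intro h
    exact ⟨h1.mpr (h.mono fun j hj => hj.mem), h2.mpr (h.mono fun j hj => hj.left_mem),
      h3.mpr (h.mono fun j hj => hj.right_mem), h4.mpr (h.mono fun j hj => hj.left),
      h5.mpr (h.mono fun j hj => hj.right)⟩

end Los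

end Pool.Agent.H837.CF
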