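import Pool.Agent.H837.CF.Main

/-!
# Homomorphisms given by families of zero-cycles and rational equivalences of bounded complexity over
# finite fields: the equivalences
-/

set_option autoImplicit false

namespace Pool.Agent.H837.CF

open MvPolynomial Pool.Agent.Y148.OD Pool.Agent.H837.UF
open Filter hiding map

variable {R : Type} [CommRing R] {r s m m' : ℕ}

/-- The zero-cycles `Γ(x)` can be moved, uniformly, on almost all reductions to algebraic closures of
finite fields. -/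
def UniformlyBounded (S : Finset (MvPolynomial (Fin (r + 1)) R))
    (T : Finset (MvPolynomial (Fin (s + 1)) R))
    (G G' : Finset (MvPolynomial (Fin (r + 1)) (MvPolynomial (Fin (s + 1)) R))) (m m' : ℕ)
    (l : Fin (r + 1) → R) : Prop :=
  ∃ (n c p₀ : ℕ) (h : R), h ≠ 0 ∧ ∀ (p : ℕ) [Fact p.Prime], p₀ ≤ p →
    ∀ ψ : R →+* AlgebraicClosure (ZMod p), ψ h ≠ 0 → CMoves S T G G' m m' l ψ n c

/-- The zero-cycles `Γ(x)` can be moved, uniformly, on a dense set of reductions to algebraic closures of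
finite fields. -/
def DenselyBounded (S : Finset (MvPolynomial (Fin (r + 1)) R))
    (T : Finset (MvPolynomial (Fin (s + 1)) R))
    (G G' : Finset (MvPolynomial (Fin (r + 1)) (MvPolynomial (Fin (s + 1)) R))) (m m' : ℕ)
    (l : Fin (r + 1) → R) : Prop :=
  ∃ n c : ℕ, ∀ h : R, h ≠ 0 → ∀ p₀ : ℕ, ∃ (p : ℕ) (_ : Fact p.Prime)
    (ψ : R →+* AlgebraicClosure (ZMod p)), p₀ ≤ p ∧ ψ h ≠ 0 ∧ CMoves S T G G' m m' l ψ n c

theorem closed_member {T : Finset (MvPolynomial (Fin (s + 1)) R)}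
    (hT : ∀ P ∈ T, ∃ d : ℕ, P.IsHomogeneous d) (ι : R →+* ℂ) : IsClosedSet (Member T ι) := by
  classical
  refine ⟨T.image (map ι), fun P hP => ?_, fun x => ?_⟩
  · obtain ⟨Q, hQ, rfl⟩ := Finset.mem_image.mp hP
    obtain ⟨d, hd⟩ := hT Q hQ
    exact ⟨d, hd.map _⟩
  · rw [Finset.forall_mem_image]
    exact ⟨fun h => h.2, fun h => ⟨x.rep_nonzero, h⟩⟩

theorem bounded_tfae [Algebra.FiniteType ℤ R] {N : ℕ} (hN : 1 ≤ N)
    {S : Finset (MvPolynomial (Fin (r + 1)) R)} {T : Finset (MvPolynomial (Fin (s + 1)) R)}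
    {G G' : Finset (MvPolynomial (Fin (r + 1)) (MvPolynomial (Fin (s + 1)) R))}
    (hS : ∀ P ∈ S, ∃ d : ℕ, P.IsHomogeneous d) (hT : ∀ P ∈ T, ∃ d : ℕ, P.IsHomogeneous d)
    (hG : ∀ g ∈ G, ∃ d : ℕ, g.IsHomogeneous d) (hG' : ∀ g ∈ G', ∃ d : ℕ, g.IsHomogeneous d)
    (ι : R →+* ℂ) (hι : Function.Injective ι) (hX : IsVariety (Member S ι) N)
    (hY : (Member T ι).Nonempty) (l : Fin (r + 1) → R)
    (hl : ∃ v ∈ Cone S ι, ∑ a, ι (l a) * v a ≠ 0)
    {f : Member S ι → Fin m → Member T ι} {g : Member S ι → Fin m' → Member T ι}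
    (hf : Given S T G ι f) (hg : Given S T G' ι g) {φ : B (Member S ι) →+ B (Member T ι)}
    (hφ : ∀ x, φ (γ (Member S ι) fun _ : Fin 1 => x) =
      γ (Member T ι) (f x) - γ (Member T ι) (g x)) :
    [∃ n : ℕ, ∀ x : Fin n → Member S ι, 0 < dim (fibreHom φ x), UniformlyBounded S T G G' m m' l,
      DenselyBounded S T G G' m m' l].TFAE := by
  classical
  have hφ' : IsAlgebraicHom (Member S ι) (Member T ι) φ :=
    ⟨m, m', f, g, hf.isMorphism hG, hg.isMorphism hG', hφ⟩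
  have hcone := cone_member hS ι
  have hgeo := corr_geo hN hX (closed_member hT ι) hφ' (l := fun a => ι (l a)) (by
    rw [hcone]
    exact hl)
  rw [hcone] at hgeo
  have ht := fun n : ℕ => transfer ι hι
    (∀ z : Fin (n + 1) → Fin (r + 1) → ℂ, (∀ i, z i ∈ Cone S ι) →
        ∃ y : Fin (n + 1) → Fin (r + 1) → ℂ, (∀ i, y i ∈ Cone S ι) ∧ ∑ a, ι (l a) * y 0 a = 0 ∧
          ∑ i, φ (cl (Member S ι) (z i)) = ∑ i, φ (cl (Member S ι) (y i)))
    (fun _ _ ψ c => CMoves S T G G' m m' l ψ n c) (fun p _ ψ π hπ hc hno hQ => by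
      subst hc
      have hT0 : (Cone T (π.comp (RingHom.pi ψ))).Nonempty := by
        obtain ⟨y, hy⟩ := hY
        exact ⟨_, hy⟩
      obtain ⟨x, y, y', hx, hall⟩ := step₁ hπ l n (fun j => j)
        (fun m => Nat.hyperfilter_le_atTop (eventually_ge_atTop m)) (Eventually.of_forall hno) hT0
      obtain ⟨u, hu, hu0, hsum⟩ := hQ x fun i => (hx i).mem
      choose z z' hz using fun i => exists_graph hS hG hG' hf hg (hu i)
      exact hall u z z' hz hu0 ((cmoves_iff hS hT hG hG' hf hg hφ hY hx hz).mp hsum))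
    (fun p _ ψ π hπ hc c h => by
      subst hc
      intro x hx
      have hmv := step₂ hπ l n c (Eventually.of_forall h)
      choose y y' hy using fun i => exists_graph hS hG hG' hf hg (hx i)
      obtain ⟨u, z, z', hz, hu0, hrat⟩ := hmv x y y' hy
      exact ⟨u, fun i => (hz i).mem, hu0,
        (cmoves_iff hS hT hG hG' hf hg hφ hY hy hz).mpr ⟨c, hrat⟩⟩)
  tfae_have 1 → 2 := by
    intro h
    obtain ⟨n, hn⟩ := hgeo.mp h
    obtain ⟨h, c, p₀, h1, h2⟩ := ((ht n).out 0 1).mp hn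
    exact ⟨n, c, p₀, h, h1, h2⟩
  tfae_have 2 → 3 := by
    rintro ⟨n, c, p₀, h, h1, h2⟩
    have h12 := (ht n).out 1 2
    obtain ⟨c', hc'⟩ := h12.mp ⟨h, c, p₀, h1, h2⟩
    exact ⟨n, c', hc'⟩
  tfae_have 3 → 1 := by
    rintro ⟨n, c, h⟩
    have h02 := (ht n).out 0 2
    exact hgeo.mpr ⟨n, h02.mpr ⟨c, h⟩⟩
  tfae_finish

/-- For surfaces the homomorphisms with positive-dimensional fibres are finite-dimensional. -/
theorem surface_iff {X : Set (Pt r)} {Y : Set (Pt s)} (hX : IsVariety X 2) (hY : IsClosedSet Y)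
    {φ : B X →+ B Y} (hφ : IsAlgebraicHom X Y φ) :
    (∃ n : ℕ, ∀ x : Fin n → X, 0 < dim (fibreHom φ x)) ↔
      ∃ c : ℕ, ∀ (n : ℕ) (x : Fin n → X), 2 * n ≤ dim (fibreHom φ x) + c := by
  have h := hom_tfae stmComp stmCurve stmStab (le_refl 2) hX hY hφ
  have h2 := h.out 0 1
  rw [← h2.symm]
  simp

/-- In general the image is supported on a divisor. -/
theorem moves_iff {X : Set (Pt r)} {Y : Set (Pt s)} {N : ℕ} (hN : 1 ≤ N) (hX : IsVariety X N)
    (hY : IsClosedSet Y) {φ : B X →+ B Y} (hφ : IsAlgebraicHom X Y φ) :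
    (∃ n : ℕ, ∀ x : Fin n → X, 0 < dim (fibreHom φ x)) ↔ Pool.Agent.H837.RN.Moves φ (N - 1) := by
  obtain ⟨e, rfl⟩ : ∃ e, N = e + 1 := ⟨N - 1, by omega⟩
  have h := (Pool.Agent.H837.RN.tfae_hom (e := e) (by omega) hX hY hφ).out 1 2
  have h2 : e + 1 - 1 = e := rfl
  rw [h2, ← h, Pool.Agent.H837.RN.LargeForOne]
  have h3 : e + 1 - e - 1 = 0 := by omega
  rw [h3]
  simp only [Nat.zero_mul]

/-- The equations of two projective varieties and of two families of zero-cycles on the second variety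
which are parametrized by the first one. -/
structure Data (R : Type) [CommRing R] (r s : ℕ) where
  /-- the equations of the first variety -/
  S : Finset (MvPolynomial (Fin (r + 1)) R)
  /-- the equations of the second variety -/
  T : Finset (MvPolynomial (Fin (s + 1)) R)
  /-- the first family of zero-cycles -/
  G : Finset (MvPolynomial (Fin (r + 1)) (MvPolynomial (Fin (s + 1)) R))
  /-- the second family of zero-cycles -/
  G' : Finset (MvPolynomial (Fin (r + 1)) (MvPolynomial (Fin (s + 1)) R))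
  homS : ∀ P ∈ S, ∃ d : ℕ, P.IsHomogeneous d
  homT : ∀ P ∈ T, ∃ d : ℕ, P.IsHomogeneous d
  homG : ∀ g ∈ G, ∃ d : ℕ, g.IsHomogeneous d
  homG' : ∀ g ∈ G', ∃ d : ℕ, g.IsHomogeneous d

/-- The first complex variety. -/
def Data.X (D : Data R r s) (ι : R →+* ℂ) : Set (Pt r) := Member D.S ι

/-- The second complex variety. -/
def Data.Y (D : Data R r s) (ι : R →+* ℂ) : Set (Pt s) := Member D.T ι

/-- The hyperplane `l = 0` does not contain the first variety. -/
def Data.Proper (D : Data R r s) (ι : R →+* ℂ) (l : Fin (r + 1) → R) : Prop :=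
  ∃ v ∈ Cone D.S ι, ∑ a, ι (l a) * v a ≠ 0

/-- The homomorphism `φ` maps the class of `x` to the class of `f(x) - g(x)`, where `f(x)`, of degree
`m`, and `g(x)`, of degree `m'`, are the values at `x` of the two families of zero-cycles. -/
def Data.Gives (D : Data R r s) (ι : R →+* ℂ) (m m' : ℕ)
    (φ : Pool.Agent.H837.RN.Hom (D.X ι) (D.Y ι)) : Prop :=
  ∃ (f : D.X ι → Fin m → D.Y ι) (g : D.X ι → Fin m' → D.Y ι), Given D.S D.T D.G ι f ∧
    Given D.S D.T D.G' ι g ∧ ∀ x : D.X ι, φ (γ (D.X ι) fun _ : Fin 1 => x) =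
      γ (D.Y ι) (f x) - γ (D.Y ι) (g x)

/-- For one `n` the fibres of the map from `Xⁿ` to `B(Y)` have positive dimension. -/
def Positive {X : Set (Pt r)} {Y : Set (Pt s)} (φ : Pool.Agent.H837.RN.Hom X Y) : Prop :=
  ∃ n : ℕ, ∀ x : Fin n → X, 0 < dim (fibreHom φ x)

/-- `φ` is finite-dimensional: the codimension of the fibres of the map from `Xⁿ` to `B(Y)` is bounded
independently of `n`, where `X` is a surface. -/
def FiniteDim {X : Set (Pt r)} {Y : Set (Pt s)} (φ : Pool.Agent.H837.RN.Hom X Y) : Prop :=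
  ∃ c : ℕ, ∀ (n : ℕ) (x : Fin n → X), 2 * n ≤ dim (fibreHom φ x) + c

theorem data_tfae [Algebra.FiniteType ℤ R] (D : Data R r s) {N : ℕ} (hN : 1 ≤ N)
    {ι : R →+* ℂ} (hι : Function.Injective ι) (hX : IsVariety (D.X ι) N)
    (hY : (D.Y ι).Nonempty) {l : Fin (r + 1) → R} (hl : D.Proper ι l)
    {φ : Pool.Agent.H837.RN.Hom (D.X ι) (D.Y ι)} (hφ : D.Gives ι m m' φ) :
    [Positive φ, Pool.Agent.H837.RN.Moves φ (N - 1),
      UniformlyBounded D.S D.T D.G D.G' m m' l, DenselyBounded D.S D.T D.G D.G' m m' l].TFAE := by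
  obtain ⟨f, g, hf, hg, hfg⟩ := hφ
  have hφ' : IsAlgebraicHom (Member D.S ι) (Member D.T ι) φ :=
    ⟨m, m', f, g, hf.isMorphism D.homG, hg.isMorphism D.homG', hfg⟩
  have h := bounded_tfae hN D.homS D.homT D.homG D.homG' ι hι hX hY l hl hf hg hfg
  have h1 := moves_iff hN hX (closed_member D.homT ι) hφ'
  tfae_have 1 ↔ 2 := h1
  tfae_have 1 ↔ 3 := h.out 0 1
  tfae_have 1 ↔ 4 := h.out 0 2
  tfae_finish

theorem data_surface (D : Data R r s) {ι : R →+* ℂ} (hX : IsVariety (D.X ι) 2)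
    {φ : Pool.Agent.H837.RN.Hom (D.X ι) (D.Y ι)} (hφ : D.Gives ι m m' φ) :
    Positive φ ↔ FiniteDim φ := by
  obtain ⟨f, g, hf, hg, hfg⟩ := hφ
  have hφ' : IsAlgebraicHom (Member D.S ι) (Member D.T ι) φ :=
    ⟨m, m', f, g, hf.isMorphism D.homG, hg.isMorphism D.homG', hfg⟩
  exact surface_iff hX (closed_member D.homT ι) hφ'

end Pool.Agent.H837.CF
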