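import Pool.Agent.H837.CF.Cpx
import Pool.Agent.H837.UF.Transfer

/-!
# Homomorphisms given by families of zero-cycles and rational equivalences of bounded complexity over
# finite fields
-/

set_option autoImplicit false

namespace Pool.Agent.H837.CF

open MvPolynomial Pool.Agent.Y148.OD Pool.Agent.H837.UF
open Filter hiding map

section Defs

variable {R : Type} [CommRing R] {r s m m' n : ℕ}

/-- All the points of the zero-cycles `∑ [y i j]` and `∑ [z' i j]`. -/
def joinCycles {K : Type} (y : Fin n → Fin m → Fin (s + 1) → K)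
    (z' : Fin n → Fin m' → Fin (s + 1) → K) : (Fin n × Fin m) ⊕ (Fin n × Fin m') → Fin (s + 1) → K :=
  Sum.elim (fun q => y q.1 q.2) (fun q => z' q.1 q.2)

/-- Let `Γ(x) = G(x) - G'(x)` be the difference of the zero-cycles given by the two families. For all
points `x 0, …, x n` of the variety given by `S` and `φ` there are points `u 0, …, u n` of this variety
such that `u 0` is on the hyperplane `l = 0` and the zero-cycles `∑ G(x i) + ∑ G'(u i)` and
`∑ G(u i) + ∑ G'(x i)` are rationally equivalent with complexity at most `c` on the variety given by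
`T` and `φ`. -/
def CMoves (S : Finset (MvPolynomial (Fin (r + 1)) R)) (T : Finset (MvPolynomial (Fin (s + 1)) R))
    (G G' : Finset (MvPolynomial (Fin (r + 1)) (MvPolynomial (Fin (s + 1)) R))) (m m' : ℕ)
    (l : Fin (r + 1) → R) {K : Type} [Field K] (φ : R →+* K) (n c : ℕ) : Prop :=
  ∀ (x : Fin (n + 1) → Fin (r + 1) → K) (y : Fin (n + 1) → Fin m → Fin (s + 1) → K)
    (y' : Fin (n + 1) → Fin m' → Fin (s + 1) → K), (∀ i, Graph S T G G' φ (x i) (y i) (y' i)) →
    ∃ (u : Fin (n + 1) → Fin (r + 1) → K) (z : Fin (n + 1) → Fin m → Fin (s + 1) → K)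
      (z' : Fin (n + 1) → Fin m' → Fin (s + 1) → K), (∀ i, Graph S T G G' φ (u i) (z i) (z' i)) ∧
        ∑ a, φ (l a) * u 0 a = 0 ∧ RatEqT (Cone T φ) c (joinCycles y z') (joinCycles z y')

end Defs

variable {R : Type} [CommRing R] {r s m m' : ℕ} {S : Finset (MvPolynomial (Fin (r + 1)) R)}
  {T : Finset (MvPolynomial (Fin (s + 1)) R)}
  {G G' : Finset (MvPolynomial (Fin (r + 1)) (MvPolynomial (Fin (s + 1)) R))} {ι : R →+* ℂ}

theorem sum_join {n : ℕ} {A : Type} [AddCommGroup A] {K : Type} (F : (Fin (s + 1) → K) → A)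
    (y : Fin n → Fin m → Fin (s + 1) → K) (z' : Fin n → Fin m' → Fin (s + 1) → K) :
    ∑ q, F (joinCycles y z' q) = ∑ i, ∑ j, F (y i j) + ∑ i, ∑ j, F (z' i j) := by
  rw [Fintype.sum_sum_type, Fintype.sum_prod_type, Fintype.sum_prod_type]
  rfl

/-- The criterion over the complex numbers. -/
theorem cmoves_iff (hS : ∀ P ∈ S, ∃ d : ℕ, P.IsHomogeneous d)
    (hT : ∀ P ∈ T, ∃ d : ℕ, P.IsHomogeneous d) (hG : ∀ g ∈ G, ∃ d : ℕ, g.IsHomogeneous d)
    (hG' : ∀ g ∈ G', ∃ d : ℕ, g.IsHomogeneous d) {f : Member S ι → Fin m → Member T ι}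
    {g : Member S ι → Fin m' → Member T ι} (hf : Given S T G ι f) (hg : Given S T G' ι g)
    {φ : B (Member S ι) →+ B (Member T ι)}
    (hφ : ∀ x, φ (γ (Member S ι) fun _ : Fin 1 => x) = γ (Member T ι) (f x) - γ (Member T ι) (g x))
    (hne : (Member T ι).Nonempty) {n : ℕ} {x u : Fin n → Fin (r + 1) → ℂ}
    {y z : Fin n → Fin m → Fin (s + 1) → ℂ} {y' z' : Fin n → Fin m' → Fin (s + 1) → ℂ}
    (hx : ∀ i, Graph S T G G' ι (x i) (y i) (y' i)) (hu : ∀ i, Graph S T G G' ι (u i) (z i) (z' i)) :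
    ∑ i, φ (cl (Member S ι) (x i)) = ∑ i, φ (cl (Member S ι) (u i)) ↔
      ∃ c, RatEqT (Cone T ι) c (joinCycles y z') (joinCycles z y') := by
  have hcone := cone_member hT ι
  have hA : ∀ q, joinCycles y z' q ∈ cone (Member T ι) := by
    rintro (q | q)
    · rw [hcone]
      exact (hx q.1).left_mem q.2
    · rw [hcone]
      exact (hu q.1).right_mem q.2
  have hB : ∀ q, joinCycles z y' q ∈ cone (Member T ι) := by
    rintro (q | q)
    · rw [hcone]
      exact (hu q.1).left_mem q.2
    · rw [hcone]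
      exact (hx q.1).right_mem q.2
  have h1 := clT_iff hne rfl hA hB
  rw [hcone] at h1
  rw [← h1, sum_join (cl (Member T ι)), sum_join (cl (Member T ι))]
  rw [Finset.sum_congr rfl fun i _ => graph_cl hS hT hG hG' hf hg hφ (hx i),
    Finset.sum_congr rfl fun i _ => graph_cl hS hT hG hG' hf hg hφ (hu i),
    Finset.sum_sub_distrib, Finset.sum_sub_distrib]
  constructor
  · intro h
    have h2 := sub_eq_sub_iff_add_eq_add.mp h
    exact h2
  · intro h
    exact sub_eq_sub_iff_add_eq_add.mpr h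

theorem step₁ {J : Type} {K : J → Type} [∀ j, Field (K j)] {U : Ultrafilter J}
    {φ : ∀ j, R →+* K j} {π : (∀ j, K j) →+* ℂ} (hπ : IsUltra U π)
    (l : Fin (r + 1) → R) (n : ℕ) (c : J → ℕ) (hc : ∀ m, ∀ᶠ j in U, m ≤ c j)
    (hno : ∀ᶠ j in U, ¬ CMoves S T G G' m m' l (φ j) n (c j)) (hT0 : (Cone T (π.comp (RingHom.pi φ))).Nonempty) :
    ∃ (x : Fin (n + 1) → Fin (r + 1) → ℂ) (y : Fin (n + 1) → Fin m → Fin (s + 1) → ℂ)
      (y' : Fin (n + 1) → Fin m' → Fin (s + 1) → ℂ),
      (∀ i, Graph S T G G' (π.comp (RingHom.pi φ)) (x i) (y i) (y' i)) ∧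
      ∀ (u : Fin (n + 1) → Fin (r + 1) → ℂ) (z : Fin (n + 1) → Fin m → Fin (s + 1) → ℂ)
        (z' : Fin (n + 1) → Fin m' → Fin (s + 1) → ℂ),
        (∀ i, Graph S T G G' (π.comp (RingHom.pi φ)) (u i) (z i) (z' i)) →
        ∑ a, (π.comp (RingHom.pi φ)) (l a) * u 0 a = 0 →
          ¬ ∃ c, RatEqT (Cone T (π.comp (RingHom.pi φ))) c (joinCycles y z') (joinCycles z y') := by
  have hlim := cone_lim hπ T (RingHom.pi φ)
  simp only [CMoves] at hno
  push Not at hno
  obtain ⟨x, hno⟩ := eventually_choose (A := fun j => Fin (n + 1) → Fin (r + 1) → K j) hno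
  obtain ⟨y, hno⟩ := eventually_choose (A := fun j => Fin (n + 1) → Fin m → Fin (s + 1) → K j) hno
  obtain ⟨y', hno⟩ := eventually_choose (A := fun j => Fin (n + 1) → Fin m' → Fin (s + 1) → K j) hno
  refine ⟨fun i a => π fun j => x j i a, fun i k a => π fun j => y j i k a,
    fun i k a => π fun j => y' j i k a, fun i => ?_, ?_⟩
  · refine (graph_lim hπ S T G G' φ (fun a j => x j i a) (fun k a j => y j i k a)
      fun k a j => y' j i k a).mpr ?_
    filter_upwards [hno] with j hj
    exact hj.1 i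
  rintro u z z' hu hu0 ⟨d, hd⟩
  choose u₁ hu₁ using fun i a => hπ.surj (u i a)
  choose z₁ hz₁ using fun i k a => hπ.surj (z i k a)
  choose z₁' hz₁' using fun i k a => hπ.surj (z' i k a)
  obtain rfl : (fun i a => π (u₁ i a)) = u := _root_.funext fun i => _root_.funext fun a => hu₁ i a
  obtain rfl : (fun i k a => π (z₁ i k a)) = z :=
    _root_.funext fun i => _root_.funext fun k => _root_.funext fun a => hz₁ i k a
  obtain rfl : (fun i k a => π (z₁' i k a)) = z' :=
    _root_.funext fun i => _root_.funext fun k => _root_.funext fun a => hz₁' i k a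
  have e1 : ∀ᶠ j in U, ∀ i, Graph S T G G' (φ j) (fun a => u₁ i a j) (fun k a => z₁ i k a j)
      (fun k a => z₁' i k a j) := by
    rw [eventually_all]
    intro i
    exact (graph_lim hπ S T G G' φ (u₁ i) (z₁ i) (z₁' i)).mp (hu i)
  have e2 := (plane_iff hπ l (RingHom.pi φ) (u₁ 0)).mp hu0
  have e3 := (ratEqT_lim hπ hlim d rfl
    (joinCycles (fun i k a j => y j i k a) z₁' :
      (Fin (n + 1) × Fin m) ⊕ (Fin (n + 1) × Fin m') → Fin (s + 1) → ∀ j, K j)
    (joinCycles z₁ (fun i k a j => y' j i k a) :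
      (Fin (n + 1) × Fin m) ⊕ (Fin (n + 1) × Fin m') → Fin (s + 1) → ∀ j, K j)).mp (by
      have h1 : (fun (i : (Fin (n + 1) × Fin m) ⊕ (Fin (n + 1) × Fin m')) b =>
          π ((joinCycles (fun i k a j => y j i k a) z₁' :
            (Fin (n + 1) × Fin m) ⊕ (Fin (n + 1) × Fin m') → Fin (s + 1) → ∀ j, K j) i b)) =
          joinCycles (fun i k a => π fun j => y j i k a) (fun i k a => π (z₁' i k a)) := by
        refine _root_.funext fun q => ?_
        rcases q with q | q <;> rfl
      have h2 : (fun (i : (Fin (n + 1) × Fin m) ⊕ (Fin (n + 1) × Fin m')) b =>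
          π ((joinCycles z₁ (fun i k a j => y' j i k a) :
            (Fin (n + 1) × Fin m) ⊕ (Fin (n + 1) × Fin m') → Fin (s + 1) → ∀ j, K j) i b)) =
          joinCycles (fun i k a => π (z₁ i k a)) (fun i k a => π fun j => y' j i k a) := by
        refine _root_.funext fun q => ?_
        rcases q with q | q <;> rfl
      rw [h1, h2]
      exact hd)
  have e4 : ∀ᶠ j in U, (Cone T (φ j)).Nonempty := by
    obtain ⟨v, hv⟩ := hT0
    choose v₁ hv₁ using fun a => hπ.surj (v a)
    obtain rfl : (fun a => π (v₁ a)) = v := _root_.funext hv₁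
    filter_upwards [(hlim v₁).mp hv] with j hj
    exact ⟨_, hj⟩
  obtain ⟨j, ⟨⟨⟨⟨hj0, hj1⟩, hj2⟩, hj3⟩, hj4⟩, hj5⟩ :=
    (((((hno.and e1).and e2).and e3).and e4).and (hc d)).exists
  refine hj0.2 _ _ _ hj1 hj2 ?_
  have h5 := RatEqT.mono hj3 rfl hj4 hj5
  have h1 : (fun (i : (Fin (n + 1) × Fin m) ⊕ (Fin (n + 1) × Fin m')) b =>
      (joinCycles (fun i k a j => y j i k a) z₁' :
        (Fin (n + 1) × Fin m) ⊕ (Fin (n + 1) × Fin m') → Fin (s + 1) → ∀ j, K j) i b j) =
      joinCycles (y j) (fun i k a => z₁' i k a j) := by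
    refine _root_.funext fun q => ?_
    rcases q with q | q <;> rfl
  have h2 : (fun (i : (Fin (n + 1) × Fin m) ⊕ (Fin (n + 1) × Fin m')) b =>
      (joinCycles z₁ (fun i k a j => y' j i k a) :
        (Fin (n + 1) × Fin m) ⊕ (Fin (n + 1) × Fin m') → Fin (s + 1) → ∀ j, K j) i b j) =
      joinCycles (fun i k a => z₁ i k a j) (y' j) := by
    refine _root_.funext fun q => ?_
    rcases q with q | q <;> rfl
  rw [h1, h2] at h5
  exact h5

theorem step₂ {J : Type} {K : J → Type} [∀ j, Field (K j)] {U : Ultrafilter J}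
    {φ : ∀ j, R →+* K j} {π : (∀ j, K j) →+* ℂ} (hπ : IsUltra U π)
    (l : Fin (r + 1) → R) (n c : ℕ) (h : ∀ᶠ j in U, CMoves S T G G' m m' l (φ j) n c) :
    CMoves S T G G' m m' l (π.comp (RingHom.pi φ)) n c := by
  have hlim := cone_lim hπ T (RingHom.pi φ)
  intro x y y' hx
  choose x₁ hx₁ using fun i a => hπ.surj (x i a)
  choose y₁ hy₁ using fun i k a => hπ.surj (y i k a)
  choose y₁' hy₁' using fun i k a => hπ.surj (y' i k a)
  obtain rfl : (fun i a => π (x₁ i a)) = x := _root_.funext fun i => _root_.funext fun a => hx₁ i a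
  obtain rfl : (fun i k a => π (y₁ i k a)) = y :=
    _root_.funext fun i => _root_.funext fun k => _root_.funext fun a => hy₁ i k a
  obtain rfl : (fun i k a => π (y₁' i k a)) = y' :=
    _root_.funext fun i => _root_.funext fun k => _root_.funext fun a => hy₁' i k a
  have e1 : ∀ᶠ j in U, ∀ i, Graph S T G G' (φ j) (fun a => x₁ i a j) (fun k a => y₁ i k a j)
      (fun k a => y₁' i k a j) := by
    rw [eventually_all]
    intro i
    exact (graph_lim hπ S T G G' φ (x₁ i) (y₁ i) (y₁' i)).mp (hx i)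
  have e2 : ∀ᶠ j in U, ∃ (u : Fin (n + 1) → Fin (r + 1) → K j)
      (z : Fin (n + 1) → Fin m → Fin (s + 1) → K j)
      (z' : Fin (n + 1) → Fin m' → Fin (s + 1) → K j), (∀ i, Graph S T G G' (φ j) (u i) (z i) (z' i)) ∧
        ∑ a, φ j (l a) * u 0 a = 0 ∧ RatEqT (Cone T (φ j)) c
          (joinCycles (fun i k a => y₁ i k a j) z') (joinCycles z (fun i k a => y₁' i k a j)) := by
    filter_upwards [h, e1] with j hj hj1
    exact hj _ _ _ hj1
  obtain ⟨u, e2⟩ := eventually_choose (A := fun j => Fin (n + 1) → Fin (r + 1) → K j) e2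
  obtain ⟨z, e2⟩ := eventually_choose (A := fun j => Fin (n + 1) → Fin m → Fin (s + 1) → K j) e2
  obtain ⟨z', e2⟩ := eventually_choose (A := fun j => Fin (n + 1) → Fin m' → Fin (s + 1) → K j) e2
  refine ⟨fun i a => π fun j => u j i a, fun i k a => π fun j => z j i k a,
    fun i k a => π fun j => z' j i k a, fun i => ?_, ?_, ?_⟩
  · refine (graph_lim hπ S T G G' φ (fun a j => u j i a) (fun k a j => z j i k a)
      fun k a j => z' j i k a).mpr ?_
    filter_upwards [e2] with j hj
    exact hj.1 i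
  · refine (plane_iff hπ l (RingHom.pi φ) fun a j => u j 0 a).mpr ?_
    filter_upwards [e2] with j hj
    exact hj.2.1
  · have h6 := (ratEqT_lim hπ hlim c rfl
      (joinCycles y₁ (fun i k a j => z' j i k a) :
        (Fin (n + 1) × Fin m) ⊕ (Fin (n + 1) × Fin m') → Fin (s + 1) → ∀ j, K j)
      (joinCycles (fun i k a j => z j i k a) y₁' :
        (Fin (n + 1) × Fin m) ⊕ (Fin (n + 1) × Fin m') → Fin (s + 1) → ∀ j, K j)).mpr (by
        filter_upwards [e2] with j hj
        have h1 : (fun (i : (Fin (n + 1) × Fin m) ⊕ (Fin (n + 1) × Fin m')) b =>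
            (joinCycles y₁ (fun i k a j => z' j i k a) :
              (Fin (n + 1) × Fin m) ⊕ (Fin (n + 1) × Fin m') → Fin (s + 1) → ∀ j, K j) i b j) =
            joinCycles (fun i k a => y₁ i k a j) (z' j) := by
          refine _root_.funext fun q => ?_
          rcases q with q | q <;> rfl
        have h2 : (fun (i : (Fin (n + 1) × Fin m) ⊕ (Fin (n + 1) × Fin m')) b =>
            (joinCycles (fun i k a j => z j i k a) y₁' :
              (Fin (n + 1) × Fin m) ⊕ (Fin (n + 1) × Fin m') → Fin (s + 1) → ∀ j, K j) i b j) =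
            joinCycles (z j) (fun i k a => y₁' i k a j) := by
          refine _root_.funext fun q => ?_
          rcases q with q | q <;> rfl
        rw [h1, h2]
        exact hj.2.2)
    have h1 : (fun (i : (Fin (n + 1) × Fin m) ⊕ (Fin (n + 1) × Fin m')) b =>
        π ((joinCycles y₁ (fun i k a j => z' j i k a) :
          (Fin (n + 1) × Fin m) ⊕ (Fin (n + 1) × Fin m') → Fin (s + 1) → ∀ j, K j) i b)) =
        joinCycles (fun i k a => π (y₁ i k a)) (fun i k a => π fun j => z' j i k a) := by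
      refine _root_.funext fun q => ?_
      rcases q with q | q <;> rfl
    have h2 : (fun (i : (Fin (n + 1) × Fin m) ⊕ (Fin (n + 1) × Fin m')) b =>
        π ((joinCycles (fun i k a j => z j i k a) y₁' :
          (Fin (n + 1) × Fin m) ⊕ (Fin (n + 1) × Fin m') → Fin (s + 1) → ∀ j, K j) i b)) =
        joinCycles (fun i k a => π fun j => z j i k a) (fun i k a => π (y₁' i k a)) := by
      refine _root_.funext fun q => ?_
      rcases q with q | q <;> rfl
    rw [h1, h2] at h6
    exact h6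

end Pool.Agent.H837.CF
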